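import Pool.Agent.SCT.StmtsP

/-! Squad SCT, row PFS: Pfaffian cubic fourfolds have secant data. -/

set_option autoImplicit false

namespace Pool.Agent.SCT.H72

open MvPolynomial Matrix

theorem rat_le_of_mem {k Ω ι : Type} [Field k] [Field Ω] [Algebra k Ω] {C : IntermediateField k Ω}
    {y : ι → Ω} (h : ∀ i, y i ∈ C) : rat k y ≤ C := by
  unfold rat
  rw [IntermediateField.adjoin_le_iff]
  rintro _ ⟨i, j, rfl⟩
  exact div_mem (h i) (h j)

theorem trdeg_mono' {k Ω : Type} [Field k] [Field Ω] [Algebra k Ω] {C D : IntermediateField k Ω}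
    (h : C ≤ D) {d : ℕ} (hd : Algebra.trdeg k D ≤ (d : Cardinal)) :
    Algebra.trdeg k C ≤ (d : Cardinal) :=
  (trdeg_le_of_injective (IntermediateField.inclusion h)
    (IntermediateField.inclusion_injective h)).trans hd

theorem dd_algMap {E : Type} [Field E] (f : MvPolynomial (Fin (4 + 2)) E)
    (a b : Fin (4 + 2) → FT E 4) :
    dd f (fun i => algebraMap (FT E 4) (Cl E 4) (a i)) (fun i => algebraMap (FT E 4) (Cl E 4) (b i)) =
      algebraMap (FT E 4) (Cl E 4) (dd f a b) := by
  unfold dd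
  rw [map_sum]
  apply Finset.sum_congr rfl
  intro i _
  rw [map_mul]
  congr 1
  exact aeval_algebraMap_apply (Cl E 4) a (pderiv i f)

/-- the dimension of one of the two points -/
theorem one_pt (hexp : ExpStmt) (hdpf : DpfStmt) {E : Type} [Field E] [IsAlgClosed E]
    {f : MvPolynomial (Fin (4 + 2)) E}
    {m : Fin (4 + 2) → Matrix (Fin (4 + 2)) (Fin (4 + 2)) E} {c : E} (hf : f.IsHomogeneous 3)
    (hns : Nonsing E 4 f) (hpf : Pf E f m c) {ξ : Fin (4 + 2) → E} {v x : Fin (4 + 2) → FT E 4}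
    (hξ : ξ ≠ 0)
    (hMv : (pm E m (gen E 4)).mulVec v = (fun i => algebraMap E (FT E 4) (ξ i)))
    (hadj : (nm E m v).adjugate ≠ 0) (hfx : aeval x f = 0) (hMx : (pm E m x).mulVec v = 0)
    {u : Cl E 4}
    (hu : algebraMap (FT E 4) (Cl E 4) (aeval (gen E 4) f) +
      u * algebraMap (FT E 4) (Cl E 4) (dd f (gen E 4) x) +
      u ^ 2 * algebraMap (FT E 4) (Cl E 4) (dd f x (gen E 4)) = 0) :
    DimLe E (pt E 4 x u) 2 := by
  have hfT : aeval (gen E 4) f ≠ 0 := aeval_gen_ne hns.ne_zero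
  have hev : ∀ y : Fin (4 + 2) → FT E 4,
      aeval (fun i => algebraMap (FT E 4) (Cl E 4) (y i)) f =
        algebraMap (FT E 4) (Cl E 4) (aeval y f) := fun y => aeval_algebraMap_apply (Cl E 4) y f
  let e : FT E 4 →ₐ[E] Cl E 4 := IsScalarTower.toAlgHom E (FT E 4) (Cl E 4)
  have he : ∀ y, e y = algebraMap (FT E 4) (Cl E 4) y := fun _ => rfl
  -- the value at the point
  have h1 := (hexp E (Cl E 4) (Fin (4 + 2)) f hf
    (fun i => algebraMap (FT E 4) (Cl E 4) (gen E 4 i))
    (fun i => algebraMap (FT E 4) (Cl E 4) (x i)) u).1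
  rw [hev, hev, hfx, map_zero, mul_zero, add_zero, dd_algMap, dd_algMap, hu] at h1
  have h2 : aeval (pt E 4 x u) f = 0 := h1
  -- the point is not zero
  have h3 : ∀ s : Cl E 4, (fun i => pt E 4 x u i + s * algebraMap (FT E 4) (Cl E 4) (x i)) =
      fun i => algebraMap (FT E 4) (Cl E 4) (gen E 4 i) +
        (u + s) * algebraMap (FT E 4) (Cl E 4) (x i) := by
    intro s
    funext i
    simp only [pt]
    ring
  have h4 : aeval (fun i => pt E 4 x u i + (-u) * algebraMap (FT E 4) (Cl E 4) (x i)) f ≠ 0 := by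
    rw [h3]
    have h5 : (fun i => algebraMap (FT E 4) (Cl E 4) (gen E 4 i) +
        (u + -u) * algebraMap (FT E 4) (Cl E 4) (x i)) =
        fun i => algebraMap (FT E 4) (Cl E 4) (gen E 4 i) := by
      funext i
      ring
    rw [h5, hev]
    exact fun h => hfT ((map_eq_zero_iff _ (algebraMap (FT E 4) (Cl E 4)).injective).1 h)
  have h6 : pt E 4 x u ≠ 0 := by
    intro h
    apply h4
    have h7 := (hexp E (Cl E 4) (Fin (4 + 2)) f hf
      (fun i => algebraMap (FT E 4) (Cl E 4) (x i))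
      (fun i => algebraMap (FT E 4) (Cl E 4) (x i)) (-u)).2.2.2.1
    rw [hev, hfx, map_zero, mul_zero] at h7
    have h8 : (fun i => pt E 4 x u i + (-u) * algebraMap (FT E 4) (Cl E 4) (x i)) =
        fun i => (-u) * algebraMap (FT E 4) (Cl E 4) (x i) := by
      funext i
      rw [h]
      simp
    rw [h8]
    exact h7
  -- the matrices
  have h9 : (pm E m (fun i => e (x i))).mulVec (fun i => e (v i)) = 0 := by
    rw [pm_map]
    have h := congrArg (fun z : Fin (4 + 2) → FT E 4 => fun i => e (z i)) hMx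
    have h' : (fun i => e (((pm E m x).mulVec v) i)) =
        ((pm E m x).map e).mulVec (fun i => e (v i)) := by
      funext i
      simp only [Matrix.mulVec, dotProduct, map_sum, map_mul, Matrix.map_apply]
    rw [← h']
    refine h.trans ?_
    funext i
    simp
  have h10 : (pm E m (pt E 4 x u)).mulVec (fun i => e (v i)) =
      (fun i => algebraMap E (Cl E 4) (ξ i)) := by
    have h11 : pm E m (pt E 4 x u) = pm E m (fun i => e (gen E 4 i)) +
        u • pm E m (fun i => e (x i)) := by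
      rw [← pm_smul, ← pm_add]
      rfl
    rw [h11, Matrix.add_mulVec, Matrix.smul_mulVec, h9, smul_zero, add_zero, pm_map]
    have h' : (fun i => e (((pm E m (gen E 4)).mulVec v) i)) =
        ((pm E m (gen E 4)).map e).mulVec (fun i => e (v i)) := by
      funext i
      simp only [Matrix.mulVec, dotProduct, map_sum, map_mul, Matrix.map_apply]
    rw [← h', hMv]
    funext i
    exact e.commutes (ξ i)
  have h12 : (nm E m (fun i => e (v i))).adjugate ≠ 0 := by
    rw [nm_map]
    intro h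
    apply hadj
    have h13 := AlgHom.map_adjugate e (nm E m v)
    have h14 : e.mapMatrix (nm E m v).adjugate = 0 := h13.trans h
    ext i j
    have h15 := congrFun (congrFun h14 i) j
    simp only [AlgHom.mapMatrix_apply, Matrix.map_apply, Matrix.zero_apply] at h15
    exact (map_eq_zero_iff e e.toRingHom.injective).1 h15
  exact hdpf E f m c hf hns hpf (Cl E 4) ξ (fun i => e (v i)) (pt E 4 x u) (fun i => e (x i)) hξ h6
    h2 h10 h12 h9 ⟨-u, h4⟩

theorem pfs (hani : AniStmt) (hexp : ExpStmt) (hpdt : PdtStmt) (hlsx : LsxStmt) (hadjS : AdjStmt)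
    (hhyd : HydStmt) (hcxi : CxiStmt) (hdpf : DpfStmt) : PfsStmt := by
  intro E _ _ f m c hf hns hpf
  have _ : Infinite E := IsAlgClosed.instInfinite
  obtain ⟨ξ, v, hξ, hMv, hadj⟩ := hcxi E f m c hf hns hpf
  have hfT : aeval (gen E 4) f ≠ 0 := aeval_gen_ne hns.ne_zero
  have hv : v ≠ 0 := by
    rintro rfl
    apply hξ
    funext i
    have h := congrFun hMv i
    rw [Matrix.mulVec_zero] at h
    exact ((map_eq_zero_iff _ (algebraMap E (FT E 4)).injective).1 h.symm)
  have hself : ∀ z : Fin (4 + 2) → FT E 4, v ⬝ᵥ (pm E m z).mulVec v = 0 :=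
    fun z => alt_self (pm_diag hpf z) (pm_alt hpf z) v
  have hdetN : (nm E m v).det = 0 := by
    rw [← Matrix.exists_vecMul_eq_zero_iff]
    refine ⟨v, hv, ?_⟩
    funext k
    have h := hself (Pi.single k 1)
    rw [← nm_mulVec, Matrix.dotProduct_mulVec, dotProduct_single_one] at h
    exact h
  obtain ⟨i0, l, hil⟩ : ∃ i0 l, (nm E m v).adjugate i0 l ≠ 0 := by
    by_contra hcon
    push Not at hcon
    exact hadj (Matrix.ext hcon)
  obtain ⟨x, hxdef⟩ : ∃ x : Fin (4 + 2) → FT E 4, ∀ i, x i = (nm E m v).adjugate i l :=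
    ⟨_, fun _ => rfl⟩
  have hx : x ≠ 0 := by
    intro h
    apply hil
    rw [← hxdef, h]
    rfl
  have hNx : (nm E m v).mulVec x = 0 := by
    have h := Matrix.mul_adjugate (nm E m v)
    rw [hdetN, zero_smul] at h
    funext i
    have h2 := congrFun (congrFun h i) l
    rw [Matrix.mul_apply] at h2
    simp only [Matrix.mulVec, dotProduct, hxdef]
    exact h2
  have hMx : (pm E m x).mulVec v = 0 := by rw [← nm_mulVec]; exact hNx
  have hcK : algebraMap E (FT E 4) c ≠ 0 := by
    intro h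
    exact hpf.ne ((map_eq_zero_iff _ (algebraMap E (FT E 4)).injective).1 h)
  have hfx : aeval x f = 0 := by
    have h1 : (pm E m x).det = 0 := Matrix.exists_mulVec_eq_zero_iff.1 ⟨v, hv, hMx⟩
    rw [hpdt E f m c hpf (FT E 4) x] at h1
    rcases mul_eq_zero.1 h1 with h | h
    · exact absurd h hcK
    · exact pow_eq_zero_iff (two_ne_zero) |>.1 h
  have ha2 : dd f x (gen E 4) ≠ 0 := hani E 4 f hf hns x hx hfx
  have ha2' : algebraMap (FT E 4) (Cl E 4) (dd f x (gen E 4)) ≠ 0 := by
    intro h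
    exact ha2 ((map_eq_zero_iff _ (algebraMap (FT E 4) (Cl E 4)).injective).1 h)
  -- the roots
  obtain ⟨a0, ha0⟩ : ∃ a0, a0 = algebraMap (FT E 4) (Cl E 4) (aeval (gen E 4) f) := ⟨_, rfl⟩
  obtain ⟨a1, ha1⟩ : ∃ a1, a1 = algebraMap (FT E 4) (Cl E 4) (dd f (gen E 4) x) := ⟨_, rfl⟩
  obtain ⟨a2, ha2d⟩ : ∃ a2, a2 = algebraMap (FT E 4) (Cl E 4) (dd f x (gen E 4)) := ⟨_, rfl⟩
  rw [← ha2d] at ha2'
  obtain ⟨u, hu⟩ : ∃ u : Cl E 4, a0 + u * a1 + u ^ 2 * a2 = 0 := by
    obtain ⟨u, hu⟩ := IsAlgClosed.exists_root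
      (Polynomial.C a2 * Polynomial.X ^ 2 + Polynomial.C a1 * Polynomial.X + Polynomial.C a0)
      (by rw [Polynomial.degree_quadratic ha2']; decide)
    refine ⟨u, ?_⟩
    rw [Polynomial.IsRoot.def] at hu
    simp only [Polynomial.eval_add, Polynomial.eval_mul, Polynomial.eval_C, Polynomial.eval_pow,
      Polynomial.eval_X] at hu
    linear_combination hu
  obtain ⟨w, hw⟩ : ∃ w : Cl E 4, a2 * w = -a1 - a2 * u := by
    refine ⟨(-a1 - a2 * u) / a2, ?_⟩
    field_simp
  have hsum : a1 = -a2 * (u + w) := by linear_combination hw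
  have hprod : a0 = a2 * (u * w) := by linear_combination hu - u * hw
  have hw2 : a0 + w * a1 + w ^ 2 * a2 = 0 := by
    rw [hsum, hprod]
    ring
  have hsec : Sec E 4 2 2 f x u w := by
    refine ⟨hx, hfx, ?_, ?_, ?_, ?_⟩
    · rw [← ha1, ← ha2d]
      exact hsum
    · rw [← ha0, ← ha2d]
      exact hprod
    · apply one_pt hexp hdpf hf hns hpf hξ hMv hadj hfx hMx
      rw [← ha0, ← ha1, ← ha2d]
      exact hu
    · apply one_pt hexp hdpf hf hns hpf hξ hMv hadj hfx hMx
      rw [← ha0, ← ha1, ← ha2d]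
      exact hw2
  refine ⟨x, u, w, hsec, ?_⟩
  intro c'
  -- the field of `v`
  have hC : DimLe E v 4 := by
    apply hhyd E (FT E 4) 4 v ξ hξ
    have h := hself (gen E 4)
    rw [hMv] at h
    rw [← h]
    simp only [dotProduct]
    apply Finset.sum_congr rfl
    intro i _
    ring
  obtain ⟨j, hj⟩ : ∃ j, v j ≠ 0 := by
    by_contra hcon
    push Not at hcon
    exact hv (funext hcon)
  have hmem : ∀ i, (v j)⁻¹ * v i ∈ rat E v := by
    intro i
    rw [mul_comm, ← div_eq_mul_inv]
    exact IntermediateField.subset_adjoin _ _ ⟨i, j, rfl⟩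
  let v' : Fin (4 + 2) → rat E v := fun i => ⟨(v j)⁻¹ * v i, hmem i⟩
  have hNv' : (nm E m v').map (algebraMap (rat E v) (FT E 4)) = (v j)⁻¹ • nm E m v := by
    rw [← nm_smul]
    exact (nm_map (rat E v).val v').symm
  have hxx : ∀ i, ((nm E m v').adjugate i l : FT E 4) = ((v j)⁻¹) ^ 5 * x i := by
    intro i
    have h1 := RingHom.map_adjugate (algebraMap (rat E v) (FT E 4)) (nm E m v')
    rw [RingHom.mapMatrix_apply, RingHom.mapMatrix_apply, hNv', Matrix.adjugate_smul] at h1
    have h2 := congrFun (congrFun h1 i) l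
    rw [Matrix.map_apply, Matrix.smul_apply, ← hxdef, Fintype.card_fin] at h2
    exact h2
  obtain ⟨x', hx'⟩ : ∃ x' : Fin (4 + 2) → FT E 4, (∀ i, x' i ∈ rat E v) ∧
      ∀ i, x i = (v j) ^ 5 * x' i := by
    refine ⟨fun i => ((nm E m v').adjugate i l : FT E 4), fun i => SetLike.coe_mem _, ?_⟩
    intro i
    have h1 : x i = (v j) ^ 5 * (((v j)⁻¹) ^ 5 * x i) := by field_simp
    rw [← hxx i] at h1
    exact h1
  obtain ⟨hx'1, hx'2⟩ := hx'
  -- the linear system
  obtain ⟨z0, hz0⟩ := hlsx (rat E v) (FT E 4) (Fin (4 + 2)) (Fin (4 + 2)) (nm E m v')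
    (fun i => algebraMap E (rat E v) (ξ i)) (fun i => v j * gen E 4 i) (by
      rw [hNv', Matrix.smul_mulVec]
      have h1 : (fun i => v j * gen E 4 i) = v j • gen E 4 := rfl
      rw [h1, Matrix.mulVec_smul, smul_smul, inv_mul_cancel₀ hj, one_smul, nm_mulVec, hMv]
      rfl)
  have hz : (nm E m v).mulVec (fun i => (z0 i : FT E 4)) =
      fun i => v j * algebraMap E (FT E 4) (ξ i) := by
    have h1 : ((nm E m v').map (algebraMap (rat E v) (FT E 4))).mulVec
        (fun i => (z0 i : FT E 4)) = fun i => algebraMap E (FT E 4) (ξ i) := by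
      funext i
      have h2 := congrArg (algebraMap (rat E v) (FT E 4)) (congrFun hz0 i)
      simp only [Matrix.mulVec, dotProduct, map_sum, map_mul] at h2 ⊢
      exact h2
    rw [hNv', Matrix.smul_mulVec] at h1
    funext i
    have h3 := congrFun h1 i
    rw [Pi.smul_apply, smul_eq_mul] at h3
    rw [← h3]
    field_simp
  obtain ⟨γ, hγ⟩ : ∃ γ : FT E 4, ∀ i, v j * gen E 4 i = (z0 i : FT E 4) + γ * x i := by
    by_contra hcon
    apply hadj
    rw [hadjS]
    refine ⟨x, fun i => v j * gen E 4 i - (z0 i : FT E 4), ?_, hNx, ?_⟩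
    · rw [LinearIndependent.pair_iff' hx]
      intro a ha
      apply hcon
      refine ⟨a, fun i => ?_⟩
      have h := congrFun ha i
      rw [Pi.smul_apply, smul_eq_mul] at h
      rw [h]
      ring
    · have h1 : (fun i => v j * gen E 4 i - (z0 i : FT E 4)) =
          v j • gen E 4 - fun i => (z0 i : FT E 4) := rfl
      rw [h1, Matrix.mulVec_sub, Matrix.mulVec_smul, nm_mulVec, hMv, hz]
      funext i
      simp
  -- the two fields
  have hrx : rat E x ≤ rat E v := by
    have h1 : x = fun i => (v j) ^ 5 * x' i := funext hx'2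
    rw [h1, rat_smul (pow_ne_zero 5 hj)]
    exact rat_le_of_mem hx'1
  have hrh : rat E (hyp E 4 c' x) ≤ rat E v := by
    have h1 : hyp E 4 c' x = fun i => ((v j)⁻¹ * (v j) ^ 5) *
        ((∑ k, algebraMap E (FT E 4) (c' k) * (z0 k : FT E 4)) * x' i -
          (∑ k, algebraMap E (FT E 4) (c' k) * x' k) * (z0 i : FT E 4)) := by
      funext i
      have e1 : (∑ k, algebraMap E (FT E 4) (c' k) * gen E 4 k) =
          (v j)⁻¹ * ((∑ k, algebraMap E (FT E 4) (c' k) * (z0 k : FT E 4)) +
            γ * ((v j) ^ 5 * ∑ k, algebraMap E (FT E 4) (c' k) * x' k)) := by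
        rw [Finset.mul_sum, Finset.mul_sum, ← Finset.sum_add_distrib, Finset.mul_sum]
        apply Finset.sum_congr rfl
        intro k _
        have h2 := hγ k
        rw [hx'2 k] at h2
        field_simp
        linear_combination algebraMap E (FT E 4) (c' k) * h2
      have e2 : (∑ k, algebraMap E (FT E 4) (c' k) * x k) =
          (v j) ^ 5 * ∑ k, algebraMap E (FT E 4) (c' k) * x' k := by
        rw [Finset.mul_sum]
        apply Finset.sum_congr rfl
        intro k _
        rw [hx'2 k]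
        ring
      have e3 : gen E 4 i = (v j)⁻¹ * ((z0 i : FT E 4) + γ * ((v j) ^ 5 * x' i)) := by
        have h2 := hγ i
        rw [hx'2 i] at h2
        rw [← h2]
        field_simp
      show (∑ k, algebraMap E (FT E 4) (c' k) * gen E 4 k) * x i -
        (∑ k, algebraMap E (FT E 4) (c' k) * x k) * gen E 4 i = _
      rw [e1, e2, hx'2 i, e3]
      ring
    rw [h1, rat_smul (mul_ne_zero (inv_ne_zero hj) (pow_ne_zero 5 hj))]
    apply rat_le_of_mem
    intro i
    have hs : ∀ a : E, algebraMap E (FT E 4) a ∈ rat E v := fun a => (rat E v).algebraMap_mem a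
    refine sub_mem (mul_mem (sum_mem fun k _ => mul_mem (hs _) (SetLike.coe_mem _)) (hx'1 i))
      (mul_mem (sum_mem fun k _ => mul_mem (hs _) (hx'1 k)) (SetLike.coe_mem _))
  exact trdeg_mono' (sup_le hrx hrh) hC

end Pool.Agent.SCT.H72
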